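import Mathlib
import Pool.Agent.Lib.helper9.Lyap

set_option autoImplicit false

namespace Pool.Agent.Results.MP_cf5fc4_an.Yes

open NormedSpace Filter MeasureTheory Set Module Pool.Agent.Lib.helper9

/-- complex Euclidean space -/
abbrev V (n : ℕ) := EuclideanSpace ℂ (Fin n)

variable {E : Type} [NormedAddCommGroup E] [InnerProductSpace ℂ E] [CompleteSpace E]

/-- eigenvalues -/
def Eig (M : E →L[ℂ] E) : Set ℂ := {μ | ∃ w, w ≠ 0 ∧ M w = μ • w}

/-- all eigenvalues in the open left half plane -/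
def Stable (M : E →L[ℂ] E) : Prop := ∀ μ ∈ Eig M, μ.re < 0

/-- decay rate -/
noncomputable def decay (M : E →L[ℂ] E) : ℝ := sInf ((fun μ : ℂ => -μ.re) '' Eig M)

/-- integrand of the cost -/
noncomputable def K (M : E →L[ℂ] E) (t : ℝ) : E →L[ℂ] E := exp (t • M.adjoint) * exp (t • M)

/-- norm of the cost operator -/
noncomputable def cost (M : E →L[ℂ] E) : ℝ := ‖∫ t in Ioi (0 : ℝ), K M t‖

/-- the integral converges -/
def Conv (M : E →L[ℂ] E) : Prop := IntegrableOn (K M) (Ioi 0)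

/-- closed loop -/
noncomputable def cl {U : Type} [NormedAddCommGroup U] [NormedSpace ℂ U] (A : E →L[ℂ] E)
    (B : U →L[ℂ] E) (F : E →L[ℂ] U) : E →L[ℂ] E := A - B ∘L F

theorem gn [FiniteDimensional ℂ E] (M : E →L[ℂ] E) (h : Stable M) (v : E) (v0 : v ≠ 0) (a : ℝ)
    (ha : ‖M v‖ ≤ a * ‖v‖) : Conv M ∧ decay M ≤ 2 * finrank ℂ E * a ^ 2 * cost M := by
  have : Nontrivial E := ⟨v, 0, v0⟩
  obtain ⟨C, b, b0, hb⟩ := Lyap.stable M fun μ w x y => h μ ⟨w, x, y⟩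
  obtain ⟨i, L⟩ := Lyap.lyap M C b b0 hb
  refine ⟨i, ?_⟩
  have c0 : 0 ≤ cost M := norm_nonneg _
  by_cases g : decay M ≤ 0
  · exact g.trans (by positivity)
  have := Lyap.main M _ (decay M) (not_le.1 g) (fun μ w x y => le_neg.1 (csInf_le
    ⟨0, by rintro _ ⟨ν, hν, rfl⟩; exact (neg_pos.2 (h ν hν)).le⟩ ⟨μ, ⟨w, x, y⟩, rfl⟩))
    (Lyap.pos M) L v
  refine le_of_mul_le_mul_right (this.trans ?_) (sq_pos_of_pos (norm_pos_iff.2 v0))
  calc _ ≤ 2 * finrank ℂ E * cost M * (a * ‖v‖) ^ 2 :=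
        mul_le_mul_of_nonneg_left (pow_le_pow_left₀ (norm_nonneg _) ha 2) (by positivity)
    _ = _ := by ring

theorem result (n m : ℕ) (hm : m < n) (A : V n →L[ℂ] V n) :
    (∀ (B : V m →L[ℂ] V n) (F : V n →L[ℂ] V m), Stable (cl A B F) →
      Conv (cl A B F) ∧ decay (cl A B F) ≤ 2 * n * ‖A‖ ^ 2 * cost (cl A B F)) ∧
    ∃ G : ℝ → ℝ, Tendsto G atTop atTop ∧ ∀ (B : V m →L[ℂ] V n) (F : V n →L[ℂ] V m),
      Stable (cl A B F) → G (decay (cl A B F)) ≤ cost (cl A B F) := by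
  have H : ∀ (B : V m →L[ℂ] V n) (F : V n →L[ℂ] V m), Stable (cl A B F) →
      Conv (cl A B F) ∧ decay (cl A B F) ≤ 2 * n * ‖A‖ ^ 2 * cost (cl A B F) := fun B F h => by
    obtain ⟨v, hv, v0⟩ := (Submodule.ne_bot_iff _).1
      (LinearMap.ker_ne_bot_of_finrank_lt (f := F.toLinearMap) (by simpa using hm))
    have hv : F v = 0 := hv
    simpa using gn _ h v v0 ‖A‖ (by simpa [cl, hv] using A.le_opNorm v)
  have p : 0 < 2 * n * ‖A‖ ^ 2 + 1 := by positivity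
  refine ⟨H, fun x => x / (2 * n * ‖A‖ ^ 2 + 1), tendsto_id.atTop_div_const p, fun B F h => ?_⟩
  have c0 : 0 ≤ cost (cl A B F) := norm_nonneg _
  rw [div_le_iff₀ p]
  linarith [(H B F h).2]

end Pool.Agent.Results.MP_cf5fc4_an.Yes
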